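import Pool.Agent.U728.Lie.Stm

/-!
# Project LA, package QE (helper637): quantifier elimination, semantically

The image of a constructible subset of `Spec R[X]` in `Spec R` is constructible (Chevalley's theorem,
Mathlib); the points of `Spec R` given by assignments with values in an algebraically closed field `F`
which lie in the image of a constructible set `Z` are those which can be extended to an assignment
whose point is in `Z`.
-/

set_option autoImplicit false

namespace Pool.Agent.U637.LA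

open MvPolynomial Pool.Agent.Helper967.AD Pool.Agent.Helper967.FL Pool.Agent.U728.Lie
open PrimeSpectrum Topology TensorProduct

universe u v

section Dfn

variable {F : Type u} [Field F] [CharZero F]

theorem H_not (e : ℕ → F) (n : ℕ) : H e (Nat.pair 1 n) ↔ ¬ H e n := by
  rw [H, H, bevG_not]
  simp

theorem H_and (e : ℕ → F) (n m : ℕ) : H e (Nat.pair 2 (Nat.pair n m)) ↔ H e n ∧ H e m := by
  rw [H, H, H, bevG_and]
  simp

theorem H_or (e : ℕ → F) (k n m : ℕ) :
    H e (Nat.pair (k + 3) (Nat.pair n m)) ↔ H e n ∨ H e m := by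
  rw [H, H, H, bevG_or]
  simp

theorem H_atom (e : ℕ → F) (c : ℕ) : H e (Nat.pair 0 c) ↔ aeval e (P c) = 0 := by
  rw [H, bevG_atom, TF_iff]

theorem dfn_congr {A B : (ℕ → F) → Prop} (h : ∀ e, A e ↔ B e) (hA : Dfn A) : Dfn B := by
  obtain ⟨n, hn⟩ := hA
  exact ⟨n, fun e => (hn e).trans (h e)⟩

theorem dfn_not {A : (ℕ → F) → Prop} (hA : Dfn A) : Dfn fun e => ¬ A e := by
  obtain ⟨n, hn⟩ := hA
  exact ⟨Nat.pair 1 n, fun e => by rw [H_not, hn]⟩

theorem dfn_and {A B : (ℕ → F) → Prop} (hA : Dfn A) (hB : Dfn B) : Dfn fun e => A e ∧ B e := by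
  obtain ⟨n, hn⟩ := hA
  obtain ⟨m, hm⟩ := hB
  exact ⟨Nat.pair 2 (Nat.pair n m), fun e => by rw [H_and, hn, hm]⟩

theorem dfn_or {A B : (ℕ → F) → Prop} (hA : Dfn A) (hB : Dfn B) : Dfn fun e => A e ∨ B e := by
  obtain ⟨n, hn⟩ := hA
  obtain ⟨m, hm⟩ := hB
  exact ⟨Nat.pair (0 + 3) (Nat.pair n m), fun e => by rw [H_or, hn, hm]⟩

theorem dfn_zero (r : MvPolynomial ℕ ℚ) : Dfn fun e : ℕ → F => aeval e r = 0 := by
  obtain ⟨n, hn⟩ := pol_surj r
  refine ⟨Nat.pair 0 (Nat.pair n zeroC), fun e => ?_⟩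
  rw [H_atom, P, Nat.unpair_pair, pol_zeroC, sub_zero, hn]

theorem dfn_true : Dfn fun _ : ℕ → F => True := by
  refine dfn_congr (fun e => ?_) (dfn_zero (F := F) 0)
  simp

theorem dfn_forall {ι : Type*} (s : Finset ι) (A : ι → (ℕ → F) → Prop) (h : ∀ i, Dfn (A i)) :
    Dfn fun e => ∀ i ∈ s, A i e := by
  classical
  induction s using Finset.induction_on with
  | empty => exact dfn_congr (fun e => by simp) dfn_true
  | insert a s _ ih => exact dfn_congr (fun e => by simp) (dfn_and (h a) ih)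

theorem dfn_exists {ι : Type*} (s : Finset ι) (A : ι → (ℕ → F) → Prop) (h : ∀ i, Dfn (A i)) :
    Dfn fun e => ∃ i ∈ s, A i e := by
  classical
  induction s using Finset.induction_on with
  | empty => exact dfn_congr (fun e => by simp) (dfn_not dfn_true)
  | insert a s _ ih => exact dfn_congr (fun e => by simp) (dfn_or (h a) ih)

end Dfn

/-- the point of the spectrum given by a homomorphism to a field -/
noncomputable def pt {S : Type v} [CommRing S] {F : Type u} [Field F] (φ : S →+* F) :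
    PrimeSpectrum S := ⟨RingHom.ker φ, RingHom.ker_isPrime φ⟩

theorem mem_basic {S : Type v} [CommRing S] {F : Type u} [Field F] (φ : S →+* F)
    (C : BasicConstructibleSetData S) :
    pt φ ∈ C.toSet ↔ (∀ i, φ (C.g i) = 0) ∧ φ C.f ≠ 0 := by
  rw [BasicConstructibleSetData.toSet, Set.mem_sdiff, mem_zeroLocus, mem_zeroLocus,
    Set.range_subset_iff, Set.singleton_subset_iff]
  rfl

theorem mem_basic' {S : Type v} [CommRing S] (q : PrimeSpectrum S)
    (C : BasicConstructibleSetData S) :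
    q ∈ C.toSet ↔ (∀ i, C.g i ∈ q.asIdeal) ∧ C.f ∉ q.asIdeal := by
  rw [BasicConstructibleSetData.toSet, Set.mem_sdiff, mem_zeroLocus, mem_zeroLocus,
    Set.range_subset_iff, Set.singleton_subset_iff]
  rfl

theorem dfn_of_constr {F : Type u} [Field F] [CharZero F]
    (Z : Set (PrimeSpectrum (MvPolynomial ℕ ℚ))) (hZ : IsConstructible Z) :
    Dfn fun e : ℕ → F => pt ((aeval e : MvPolynomial ℕ ℚ →ₐ[ℚ] F) : MvPolynomial ℕ ℚ →+* F) ∈ Z := by
  obtain ⟨S, rfl⟩ := exists_constructibleSetData_iff.2 hZ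
  refine dfn_congr (fun e => ?_) (dfn_exists S (fun C e => (∀ i ∈ (Finset.univ : Finset (Fin C.n)),
    aeval e (C.g i) = 0) ∧ ¬ aeval e C.f = 0) fun C =>
      dfn_and (dfn_forall _ _ fun i => dfn_zero _) (dfn_not (dfn_zero _)))
  rw [ConstructibleSetData.toSet, Set.mem_iUnion₂]
  refine exists_congr fun C => ?_
  rw [mem_basic, exists_prop]
  simp

/-- the variable `k` becomes the variable of the polynomial ring -/
noncomputable def toX (k : ℕ) :
    MvPolynomial ℕ ℚ →ₐ[ℚ] Polynomial (MvPolynomial ℕ ℚ) :=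
  aeval fun i => if i = k then Polynomial.X else Polynomial.C (X i)

theorem eval_toX {F : Type u} [Field F] [CharZero F] (k : ℕ) (e : ℕ → F) (x : F)
    (r : MvPolynomial ℕ ℚ) :
    Polynomial.eval₂ ((aeval e : MvPolynomial ℕ ℚ →ₐ[ℚ] F) : MvPolynomial ℕ ℚ →+* F) x
      (toX k r) = aeval (Function.update e k x) r := by
  induction r using MvPolynomial.induction_on with
  | C a =>
    have h1 : toX k (C a) = Polynomial.C (C a) := by
      rw [toX, aeval_C]
      rfl
    rw [h1, Polynomial.eval₂_C, aeval_C]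
    exact aeval_C _ _
  | add p q hp hq => rw [map_add, Polynomial.eval₂_add, hp, hq, map_add]
  | mul_X p i hp =>
    have h1 : toX k (X i) = if i = k then Polynomial.X else Polynomial.C (X i) := by
      rw [toX, aeval_X]
    rw [map_mul, Polynomial.eval₂_mul, hp, map_mul, aeval_X, h1]
    by_cases hik : i = k
    · subst hik
      simp
    · rw [if_neg hik, Polynomial.eval₂_C, Function.update_of_ne hik]
      congr 1
      exact aeval_X _ _

theorem exists_constr (F : Type u) [Field F] [CharZero F] (k n : ℕ) :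
    ∃ Z : Set (PrimeSpectrum (Polynomial (MvPolynomial ℕ ℚ))), IsConstructible Z ∧
      ∀ (e : ℕ → F) (x : F), H (Function.update e k x) n ↔
        pt (Polynomial.eval₂RingHom
          ((aeval e : MvPolynomial ℕ ℚ →ₐ[ℚ] F) : MvPolynomial ℕ ℚ →+* F) x) ∈ Z := by
  refine indB (Q := fun n => ∃ Z : Set (PrimeSpectrum (Polynomial (MvPolynomial ℕ ℚ))),
    IsConstructible Z ∧ ∀ (e : ℕ → F) (x : F), H (Function.update e k x) n ↔
        pt (Polynomial.eval₂RingHom
          ((aeval e : MvPolynomial ℕ ℚ →ₐ[ℚ] F) : MvPolynomial ℕ ℚ →+* F) x) ∈ Z)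
    (fun c => ?_) (fun s hs => ?_) (fun s t hs ht => ?_) (fun j s t hs ht => ?_) n
  · refine ⟨zeroLocus {toX k (P c)}, ?_, fun e x => ?_⟩
    · rw [← isConstructible_compl]
      exact (isRetrocompact_zeroLocus_compl (Set.finite_singleton _)).isConstructible
        (isClosed_zeroLocus _).isOpen_compl
    · rw [H_atom, mem_zeroLocus, Set.singleton_subset_iff, ← eval_toX]
      rfl
  · obtain ⟨Z, hZ, h⟩ := hs
    exact ⟨Zᶜ, hZ.compl, fun e x => by rw [H_not, h, Set.mem_compl_iff]⟩
  · obtain ⟨Z, hZ, h⟩ := hs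
    obtain ⟨Z', hZ', h'⟩ := ht
    exact ⟨Z ∩ Z', hZ.inter hZ', fun e x => by rw [H_and, h, h', Set.mem_inter_iff]⟩
  · obtain ⟨Z, hZ, h⟩ := hs
    obtain ⟨Z', hZ', h'⟩ := ht
    exact ⟨Z ∪ Z', hZ.union hZ', fun e x => by rw [H_or, h, h', Set.mem_union]⟩

/-- a prime ideal of `F[X]` and finitely many conditions -/
theorem exists_pt {F : Type u} [Field F] [CharZero F] [IsAlgClosed F] (I : Ideal (Polynomial F))
    [hI : I.IsPrime] {n : ℕ} (g : Fin n → Polynomial F) (f : Polynomial F) (hg : ∀ i, g i ∈ I)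
    (hf : f ∉ I) : ∃ x : F, (∀ i, (g i).eval x = 0) ∧ f.eval x ≠ 0 := by
  obtain ⟨m, hm⟩ : ∃ m, I = Ideal.span {m} := (IsPrincipalIdealRing.principal I).principal
  by_cases hm0 : m = 0
  · have hI0 : ∀ p, p ∈ I ↔ p = 0 := by
      intro p
      rw [hm, hm0, Ideal.mem_span_singleton, zero_dvd_iff]
    have hf0 : f ≠ 0 := fun h => hf ((hI0 f).2 h)
    obtain ⟨x, hx⟩ : ∃ x : F, f.eval x ≠ 0 := by
      by_contra hcon
      push Not at hcon
      exact hf0 (Polynomial.funext fun x => by rw [hcon x, Polynomial.eval_zero])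
    exact ⟨x, fun i => by rw [(hI0 _).1 (hg i), Polynomial.eval_zero], hx⟩
  · have hprime : Prime m := by
      rw [← Ideal.span_singleton_prime hm0, ← hm]
      exact hI
    have hirr : Irreducible m := hprime.irreducible
    obtain ⟨x, hx⟩ := IsAlgClosed.exists_root m (Polynomial.degree_pos_of_irreducible hirr).ne'
    refine ⟨x, fun i => ?_, fun hfx => hf ?_⟩
    · have h1 := hg i
      rw [hm, Ideal.mem_span_singleton] at h1
      obtain ⟨c, hc⟩ := h1
      rw [hc, Polynomial.eval_mul, hx.eq_zero, zero_mul]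
    · have h1 : (Polynomial.X - Polynomial.C x) ∣ m := Polynomial.dvd_iff_isRoot.2 hx
      have h2 : (Polynomial.X - Polynomial.C x) ∣ f := Polynomial.dvd_iff_isRoot.2 hfx
      have h3 : m ∣ (Polynomial.X - Polynomial.C x) :=
        (Polynomial.irreducible_X_sub_C x).dvd_symm hirr h1
      rw [hm, Ideal.mem_span_singleton]
      exact h3.trans h2

/-- points of the fibre -/
theorem exists_lift {R : Type v} [CommRing R] {F : Type u} [Field F] [CharZero F] [IsAlgClosed F]
    (φ : R →+* F) (q : PrimeSpectrum (Polynomial R)) (hq : comap Polynomial.C q = pt φ)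
    {n : ℕ} (g : Fin n → Polynomial R) (f : Polynomial R) (hg : ∀ i, g i ∈ q.asIdeal)
    (hf : f ∉ q.asIdeal) :
    ∃ x : F, (∀ i, Polynomial.eval₂ φ x (g i) = 0) ∧ Polynomial.eval₂ φ x f ≠ 0 := by
  have hqI : ∀ r : R, Polynomial.C r ∈ q.asIdeal ↔ φ r = 0 := by
    intro r
    have h1 : r ∈ (comap Polynomial.C q).asIdeal ↔ r ∈ (pt φ).asIdeal := by rw [hq]
    exact h1
  have := q.isPrime
  let D := Polynomial R ⧸ q.asIdeal
  let L := FractionRing D
  let R' := R ⧸ RingHom.ker φ
  let φ' : R' →+* F := RingHom.kerLift φ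
  have hφ' : Function.Injective φ' := RingHom.kerLift_injective φ
  let δ₀ : R →+* L := (algebraMap D L).comp ((Ideal.Quotient.mk q.asIdeal).comp Polynomial.C)
  have hLinj : Function.Injective (algebraMap D L) := IsFractionRing.injective D L
  have hδ₀ : ∀ r, δ₀ r = 0 ↔ φ r = 0 := by
    intro r
    have h1 : δ₀ r = algebraMap D L (Ideal.Quotient.mk q.asIdeal (Polynomial.C r)) := rfl
    rw [h1, map_eq_zero_iff _ hLinj, Ideal.Quotient.eq_zero_iff_mem, hqI]
  let δ : R' →+* L := Ideal.Quotient.lift (RingHom.ker φ) δ₀ fun r hr => (hδ₀ r).2 hr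
  have hδ : Function.Injective δ := by
    rw [injective_iff_map_eq_zero]
    intro a ha
    obtain ⟨r, rfl⟩ := Ideal.Quotient.mk_surjective a
    have h1 : δ₀ r = 0 := by
      have : δ (Ideal.Quotient.mk (RingHom.ker φ) r) = δ₀ r := Ideal.Quotient.lift_mk _ _ _
      rw [← this]
      exact ha
    rw [Ideal.Quotient.eq_zero_iff_mem, RingHom.mem_ker]
    exact (hδ₀ r).1 h1
  let alg1 : Algebra R' F := φ'.toAlgebra
  let alg2 : Algebra R' L := δ.toAlgebra
  have hnt : Nontrivial (F ⊗[R'] L) :=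
    Algebra.TensorProduct.nontrivial_of_algebraMap_injective_of_isDomain R' F L hφ' hδ
  obtain ⟨m, hm⟩ := Ideal.exists_maximal (F ⊗[R'] L)
  let Ω := (F ⊗[R'] L) ⧸ m
  let : Field Ω := Ideal.Quotient.field m
  let α : F →+* Ω := (Ideal.Quotient.mk m).comp (Algebra.TensorProduct.includeLeftRingHom)
  let β : L →+* Ω := (Ideal.Quotient.mk m).comp
    (Algebra.TensorProduct.includeRight : L →ₐ[R'] F ⊗[R'] L).toRingHom
  have hαβ : ∀ r : R, α (φ r) = β (δ₀ r) := by
    intro r
    have h1 := congrArg (fun ψ : R' →+* F ⊗[R'] L => ψ (Ideal.Quotient.mk (RingHom.ker φ) r))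
      (Algebra.TensorProduct.includeLeftRingHom_comp_algebraMap (R := R') (A := F) (B := L))
    have h2 : algebraMap R' F (Ideal.Quotient.mk (RingHom.ker φ) r) = φ r :=
      RingHom.kerLift_mk φ r
    have h3 : algebraMap R' L (Ideal.Quotient.mk (RingHom.ker φ) r) = δ₀ r :=
      Ideal.Quotient.lift_mk _ _ _
    simp only [RingHom.comp_apply, h2, h3] at h1
    exact congrArg (Ideal.Quotient.mk m) h1
  let ξ : Ω := β (algebraMap D L (Ideal.Quotient.mk q.asIdeal Polynomial.X))
  let Ψ : Polynomial F →+* Ω := Polynomial.eval₂RingHom α ξ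
  have hΨ : ∀ p : Polynomial R, Ψ (p.map φ) = β (algebraMap D L (Ideal.Quotient.mk q.asIdeal p)) := by
    intro p
    have h1 : Ψ.comp (Polynomial.mapRingHom φ) =
        β.comp ((algebraMap D L).comp (Ideal.Quotient.mk q.asIdeal)) := by
      apply Polynomial.ringHom_ext
      · intro r
        simp only [RingHom.comp_apply, Polynomial.coe_mapRingHom, Polynomial.map_C]
        have h2 : Ψ (Polynomial.C (φ r)) = α (φ r) := Polynomial.eval₂_C _ _
        rw [h2, hαβ]
        rfl
      · simp only [RingHom.comp_apply, Polynomial.coe_mapRingHom, Polynomial.map_X]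
        exact Polynomial.eval₂_X _ _
    exact congrArg (fun ψ : Polynomial R →+* Ω => ψ p) h1
  have hker : (RingHom.ker Ψ).IsPrime := RingHom.ker_isPrime Ψ
  obtain ⟨x, hx1, hx2⟩ := exists_pt (RingHom.ker Ψ) (fun i => (g i).map φ) (f.map φ)
    (fun i => by
      rw [RingHom.mem_ker, hΨ, Ideal.Quotient.eq_zero_iff_mem.2 (hg i), map_zero, map_zero])
    (fun h => by
      rw [RingHom.mem_ker, hΨ, map_eq_zero_iff _ β.injective, map_eq_zero_iff _ hLinj,
        Ideal.Quotient.eq_zero_iff_mem] at h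
      exact hf h)
  exact ⟨x, fun i => by rw [← Polynomial.eval_map]; exact hx1 i,
    by rw [← Polynomial.eval_map]; exact hx2⟩

theorem t_QE : S_QE.{u} := by
  intro F _ _ _ A k hA
  obtain ⟨n, hn⟩ := hA
  obtain ⟨Z, hZ, hZn⟩ := exists_constr F k n
  refine dfn_congr (fun e => ?_) (dfn_of_constr (F := F) _ (isConstructible_comap_C hZ))
  constructor
  · rintro ⟨q, hqZ, hq⟩
    obtain ⟨S, rfl⟩ := exists_constructibleSetData_iff.2 hZ
    rw [ConstructibleSetData.toSet, Set.mem_iUnion₂] at hqZ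
    obtain ⟨C, hCS, hqC⟩ := hqZ
    rw [mem_basic'] at hqC
    obtain ⟨x, hx1, hx2⟩ := exists_lift _ q hq C.g C.f hqC.1 hqC.2
    refine ⟨x, ?_⟩
    rw [← hn, hZn, ConstructibleSetData.toSet, Set.mem_iUnion₂]
    refine ⟨C, hCS, ?_⟩
    rw [mem_basic]
    exact ⟨hx1, hx2⟩
  · rintro ⟨x, hx⟩
    rw [← hn, hZn] at hx
    refine ⟨_, hx, ?_⟩
    apply PrimeSpectrum.ext
    ext r
    change Polynomial.eval₂ _ x (Polynomial.C r) = 0 ↔ _
    rw [Polynomial.eval₂_C]
    rfl

end Pool.Agent.U637.LA
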